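import Pool.Agent.N770.BK.Ram
import Pool.Agent.N770.SK.Perm

/-!
# The character induced from a Kummer character is a combination of permutation characters
-/

set_option autoImplicit false
set_option linter.unusedSectionVars false
set_option warn.classDefReducibility false

namespace Pool.Agent.N770.BK

open Finset Polynomial
open Pool.Agent.N770.SK

section

variable {G : Type} [Group G] {V : Subgroup G} {n : ℕ} [NeZero n]

/-- `c` is a cocycle -/
def Coc (κ : V →* (ZMod n)ˣ) (c : V → ZMod n) : Prop :=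
  ∀ g h, c (g * h) = c g + ((κ g : (ZMod n)ˣ) : ZMod n) * c h

variable {κ : V →* (ZMod n)ˣ} {c : V → ZMod n}

lemma Coc.one (h : Coc κ c) : c 1 = 0 := by
  have h1 := h 1 1
  rw [mul_one, map_one, Units.val_one, one_mul] at h1
  exact left_eq_add.1 h1

/-- the action of `V` on `ZMod m`, `m ∣ n`, by the affine maps `j ↦ κ(g) j + c(g)` -/
def act (h : Coc κ c) {m : ℕ} (hm : m ∣ n) : MulAction V (ZMod m) where
  smul g j := ZMod.castHom hm (ZMod m) ((κ g : (ZMod n)ˣ) : ZMod n) * j + ZMod.castHom hm (ZMod m) (c g)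
  one_smul j := by
    change ZMod.castHom hm (ZMod m) ((κ 1 : (ZMod n)ˣ) : ZMod n) * j + ZMod.castHom hm (ZMod m) (c 1) = j
    rw [map_one, Units.val_one, map_one, h.one, map_zero, one_mul, add_zero]
  mul_smul g g' j := by
    change ZMod.castHom hm (ZMod m) ((κ (g * g') : (ZMod n)ˣ) : ZMod n) * j +
      ZMod.castHom hm (ZMod m) (c (g * g')) =
      ZMod.castHom hm (ZMod m) ((κ g : (ZMod n)ˣ) : ZMod n) *
        (ZMod.castHom hm (ZMod m) ((κ g' : (ZMod n)ˣ) : ZMod n) * j + ZMod.castHom hm (ZMod m) (c g')) +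
        ZMod.castHom hm (ZMod m) (c g)
    rw [h g g', map_mul, Units.val_mul, map_mul, map_add, map_mul]
    ring

/-- the permutation characters -/
noncomputable def pim (h : Coc κ c) {m : ℕ} (hm : m ∣ n) : G → ℂ :=
  @SK.pi G _ V (ZMod m) (act h hm)

/-- the exponent `κ(g) - 1`, as a natural number -/
def kk (κ : V →* (ZMod n)ˣ) (g : V) : ℕ := ((κ g : (ZMod n)ˣ) : ZMod n).val + (n - 1)

lemma kk_cast (g : V) : ((kk κ g : ℕ) : ZMod n) = ((κ g : (ZMod n)ˣ) : ZMod n) - 1 := by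
  have hn : 1 ≤ n := NeZero.one_le
  rw [kk, Nat.cast_add, Nat.cast_sub hn, ZMod.natCast_zmod_val, ZMod.natCast_self, Nat.cast_one]
  ring

/-- the values of the permutation characters -/
lemma pim_apply (h : Coc κ c) {m : ℕ} (hm0 : 0 < m) (hm : m ∣ n) {g : G} (hg : g ∈ V) :
    pim h hm g = cnt (kk κ ⟨g, hg⟩) (c ⟨g, hg⟩).val m := by
  classical
  have _ : NeZero m := ⟨hm0.ne'⟩
  rw [pim, SK.pi, dif_pos hg, cnt]
  congr 1
  have h1 : ∀ j : ZMod m, (act h hm).smul ⟨g, hg⟩ j = j ↔ m ∣ kk κ ⟨g, hg⟩ * j.val + (c ⟨g, hg⟩).val := by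
    intro j
    rw [← ZMod.natCast_eq_zero_iff]
    have h2 : ((kk κ ⟨g, hg⟩ * j.val + (c ⟨g, hg⟩).val : ℕ) : ZMod m) =
        ZMod.castHom hm (ZMod m) ((κ ⟨g, hg⟩ : (ZMod n)ˣ) : ZMod n) * j +
          ZMod.castHom hm (ZMod m) (c ⟨g, hg⟩) - j := by
      have h3 : ((kk κ ⟨g, hg⟩ : ℕ) : ZMod m) =
          ZMod.castHom hm (ZMod m) ((κ ⟨g, hg⟩ : (ZMod n)ˣ) : ZMod n) - 1 := by
        rw [← map_natCast (ZMod.castHom hm (ZMod m)), kk_cast, map_sub, map_one]
      have h4 : (((c ⟨g, hg⟩).val : ℕ) : ZMod m) = ZMod.castHom hm (ZMod m) (c ⟨g, hg⟩) := by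
        rw [← map_natCast (ZMod.castHom hm (ZMod m)), ZMod.natCast_zmod_val]
      rw [Nat.cast_add, Nat.cast_mul, h3, h4, ZMod.natCast_zmod_val]
      ring
    rw [h2, sub_eq_zero]
    rfl
  rw [Nat.card_eq_fintype_card, Fintype.card_subtype]
  refine Finset.card_bij (fun j _ => j.val) ?_ ?_ ?_
  · intro j hj
    rw [Finset.mem_filter] at hj ⊢
    exact ⟨Finset.mem_range.2 (ZMod.val_lt j), (h1 j).1 hj.2⟩
  · intro j _ j' _ hjj
    exact ZMod.val_injective m hjj
  · intro i hi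
    rw [Finset.mem_filter, Finset.mem_range] at hi
    refine ⟨(i : ZMod m), ?_, ZMod.val_cast_of_lt hi.1⟩
    rw [Finset.mem_filter]
    refine ⟨Finset.mem_univ _, (h1 _).2 ?_⟩
    rw [ZMod.val_cast_of_lt hi.1]
    exact hi.2

/-- conjugation -/
lemma Coc.conj (h : Coc κ c) {g q : V} (hg : κ g = 1) :
    c (q⁻¹ * g * q) = ((κ q⁻¹ : (ZMod n)ˣ) : ZMod n) * c g := by
  have h1 : c (q⁻¹ * q) = 0 := by rw [inv_mul_cancel]; exact h.one
  rw [h] at h1
  rw [mul_assoc, h, h, hg, Units.val_one, one_mul]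
  linear_combination h1

/-- powers of roots of unity with exponents in `ZMod n` -/
lemma pow_val_mul {z : ℂ} (hz : z ^ n = 1) (a b : ZMod n) : z ^ (a * b).val = (z ^ a.val) ^ b.val := by
  rw [ZMod.val_mul, ← pow_mul, ← Nat.mod_add_div (a.val * b.val) n, pow_add, pow_mul z n, hz, one_pow, mul_one,
    Nat.mod_add_div]

/-- the kernel of `κ` as a subgroup of `G` -/
def kerS (κ : V →* (ZMod n)ˣ) : Subgroup G := κ.ker.map V.subtype

lemma mem_kerS {g : G} : g ∈ kerS κ ↔ ∃ h : g ∈ V, κ ⟨g, h⟩ = 1 := by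
  constructor
  · rintro ⟨x, hx, rfl⟩
    exact ⟨x.2, hx⟩
  · rintro ⟨h, h1⟩
    exact ⟨⟨g, h⟩, h1, rfl⟩

lemma kerS_le : kerS κ ≤ V := fun _ hg => (mem_kerS.1 hg).1

lemma kerS_finite : Finite (V ⧸ (kerS κ).subgroupOf V) := by
  have hinj : Function.Injective (fun q : V ⧸ (kerS κ).subgroupOf V => κ q.out) := by
    intro q q' h
    rw [← QuotientGroup.out_eq' q, ← QuotientGroup.out_eq' q']
    refine QuotientGroup.eq.2 ?_
    rw [Subgroup.mem_subgroupOf]
    refine mem_kerS.2 ⟨(q.out⁻¹ * q'.out : V).2, ?_⟩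
    have h1 : κ q.out = κ q'.out := h
    change κ (q.out⁻¹ * q'.out) = 1
    rw [map_mul, map_inv, h1, inv_mul_cancel]
  exact Finite.of_injective _ hinj

/-- **The induced character.** -/
theorem ind_eq (h : Coc κ c) (hκ : Function.Surjective κ) {z : ℂ} (hz : IsPrimitiveRoot z n)
    {χ : kerS κ →* ℂˣ} (hχ : ∀ g : V, κ g = 1 → lin (kerS κ) χ g = z ^ (c g).val) :
    Ind V (kerS κ) (lin (kerS κ) χ) =
      ∑ x ∈ (n.divisorsAntidiagonal).attach, ArithmeticFunction.moebius x.1.1 •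
        pim h (m := x.1.2) (Nat.dvd_of_mem_divisors (Nat.snd_mem_divisors_of_mem_antidiagonal x.2)) := by
  classical
  have hn : 0 < n := NeZero.pos n
  have hfin := kerS_finite (κ := κ)
  let _ : Fintype (V ⧸ (kerS κ).subgroupOf V) := Fintype.ofFinite _
  funext g
  rw [Finset.sum_apply]
  by_cases hg : g ∈ V
  · have h1 : ∀ x : {x // x ∈ n.divisorsAntidiagonal}, (ArithmeticFunction.moebius x.1.1 •
        pim h (m := x.1.2) (Nat.dvd_of_mem_divisors (Nat.snd_mem_divisors_of_mem_antidiagonal x.2))) g =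
        ArithmeticFunction.moebius x.1.1 • cnt (kk κ ⟨g, hg⟩) (c ⟨g, hg⟩).val x.1.2 := by
      intro x
      rw [Pi.smul_apply, pim_apply h (Nat.pos_of_mem_divisors
        (Nat.snd_mem_divisors_of_mem_antidiagonal x.2)) _ hg]
    rw [Finset.sum_congr rfl fun x _ => h1 x,
      Finset.sum_attach (n.divisorsAntidiagonal)
        (fun x => ArithmeticFunction.moebius x.1 • cnt (kk κ ⟨g, hg⟩) (c ⟨g, hg⟩).val x.2),
      moebius_cnt hn, Ind, finsum_eq_sum_of_fintype]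
    have hk : ∀ ζ ∈ primitiveRoots n ℂ, ζ ^ kk κ ⟨g, hg⟩ = 1 ↔ κ ⟨g, hg⟩ = 1 := by
      intro ζ hζ
      rw [(isPrimitiveRoot_of_mem_primitiveRoots hζ).pow_eq_one_iff_dvd, ← ZMod.natCast_eq_zero_iff, kk_cast,
        sub_eq_zero, Units.val_eq_one]
    by_cases h2 : κ ⟨g, hg⟩ = 1
    · rw [Finset.sum_congr rfl fun ζ hζ => if_pos ((hk ζ hζ).2 h2)]
      have h3 : ∀ q : V ⧸ (kerS κ).subgroupOf V,
          lin (kerS κ) χ (((q.out : V) : G)⁻¹ * g * ((q.out : V) : G)) =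
          (z ^ ((κ q.out⁻¹ : (ZMod n)ˣ) : ZMod n).val) ^ (c ⟨g, hg⟩).val := by
        intro q
        have h4 : (((q.out : V) : G)⁻¹ * g * ((q.out : V) : G)) = ((q.out⁻¹ * ⟨g, hg⟩ * q.out : V) : G) := rfl
        have h5 : κ (q.out⁻¹ * ⟨g, hg⟩ * q.out : V) = 1 := by
          rw [map_mul, map_mul, h2, mul_one, map_inv, inv_mul_cancel]
        rw [h4, hχ _ h5, h.conj h2, pow_val_mul hz.pow_eq_one]
      rw [Finset.sum_congr rfl fun q _ => h3 q]
      refine Finset.sum_bij (fun q _ => z ^ ((κ q.out⁻¹ : (ZMod n)ˣ) : ZMod n).val) ?_ ?_ ?_ (fun q _ => rfl)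
      · intro q _
        rw [mem_primitiveRoots hn]
        exact hz.pow_of_coprime _ ((ZMod.val_coe_unit_coprime _))
      · intro q _ q' _ h4
        have h5 := hz.pow_inj (ZMod.val_lt _) (ZMod.val_lt _) h4
        have h6 := Units.ext (ZMod.val_injective n h5)
        rw [map_inv, map_inv, inv_inj] at h6
        rw [← QuotientGroup.out_eq' q, ← QuotientGroup.out_eq' q']
        refine QuotientGroup.eq.2 ?_
        rw [Subgroup.mem_subgroupOf]
        refine mem_kerS.2 ⟨(q.out⁻¹ * q'.out : V).2, ?_⟩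
        change κ (q.out⁻¹ * q'.out) = 1
        rw [map_mul, map_inv, h6, inv_mul_cancel]
      · intro ζ hζ
        rw [mem_primitiveRoots hn] at hζ
        obtain ⟨i, hi, hin, rfl⟩ := hz.isPrimitiveRoot_iff.1 hζ
        obtain ⟨v, hv⟩ := hκ (ZMod.unitOfCoprime i hin)⁻¹
        refine ⟨QuotientGroup.mk v, Finset.mem_univ _, ?_⟩
        obtain ⟨w, hw⟩ := out_spec (U := V) (V := kerS κ) v
        obtain ⟨hw1, hw2⟩ := mem_kerS.1 (Subgroup.mem_subgroupOf.1 w.2)
        have h4 : κ ((QuotientGroup.mk v : V ⧸ (kerS κ).subgroupOf V).out)⁻¹ = ZMod.unitOfCoprime i hin := by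
          rw [hw, map_inv, map_mul, hv, inv_eq_iff_eq_inv]
          have h5 : κ (w : V) = 1 := hw2
          rw [h5, mul_one]
        rw [h4, ZMod.coe_unitOfCoprime, ZMod.val_cast_of_lt hi]
    · rw [Finset.sum_congr rfl fun ζ hζ => if_neg (fun h3 => h2 ((hk ζ hζ).1 h3)), Finset.sum_const_zero]
      refine Finset.sum_eq_zero fun q _ => lin_not χ fun h3 => h2 ?_
      obtain ⟨h4, h5⟩ := mem_kerS.1 h3
      have h6 : κ (q.out⁻¹ * ⟨g, hg⟩ * q.out : V) = 1 := h5
      rw [map_mul, map_mul, map_inv] at h6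
      rwa [mul_comm, ← mul_assoc, mul_inv_cancel, one_mul] at h6
  · rw [Ind_supp kerS_le (lin_cl _ _) hg]
    symm
    refine Finset.sum_eq_zero fun x _ => ?_
    rw [Pi.smul_apply, pim, SK.pi, dif_neg hg, smul_zero]

end

end Pool.Agent.N770.BK
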