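import Pool.Agent.N770.BK.Defs
import Pool.Agent.N770.SK.Final

/-!
# Quadratic characters
-/

set_option autoImplicit false

namespace Pool.Agent.N770.BK

open Pool.Agent.N770.SK
open IntermediateField

section groups

variable {G : Type} [Group G]

lemma mem_kerMap' {V : Subgroup G} (χ : V →* ℂˣ) (g : G) :
    g ∈ χ.ker.map V.subtype ↔ ∃ h : g ∈ V, χ ⟨g, h⟩ = 1 := by
  constructor
  · rintro ⟨x, hx, rfl⟩
    exact ⟨x.2, hx⟩
  · rintro ⟨h, h1⟩
    exact ⟨⟨g, h⟩, h1, rfl⟩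

lemma neg_ne : (-1 : ℂˣ) ≠ 1 := by
  intro h1
  have h2 := congrArg Units.val h1
  rw [Units.val_neg, Units.val_one] at h2
  norm_num at h2

lemma ind_ker {V : Subgroup G} {χ : V →* ℂˣ} (hval : ∀ u, χ u = 1 ∨ χ u = -1) {τ : V} (hτ : χ τ = -1) :
    Ind V (χ.ker.map V.subtype) (lin (χ.ker.map V.subtype) 1) = lin V 1 + lin V χ := by
  set W := χ.ker.map V.subtype with hW
  have hmem : ∀ g, g ∈ W ↔ ∃ h : g ∈ V, χ ⟨g, h⟩ = 1 := mem_kerMap' χ
  have hWV : W ≤ V := fun g hg => ((hmem g).1 hg).1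
  have hτW : (τ : G) ∉ W := by
    intro h1
    obtain ⟨_, h2⟩ := (hmem _).1 h1
    exact neg_ne (hτ.symm.trans h2)
  have h2 : ∀ u ∈ V, u ∈ W ∨ (τ : G)⁻¹ * u ∈ W := by
    intro u hu
    rcases hval ⟨u, hu⟩ with h1 | h1
    · exact Or.inl ((hmem u).2 ⟨hu, h1⟩)
    · refine Or.inr ((hmem _).2 ⟨(τ⁻¹ * ⟨u, hu⟩ : V).2, ?_⟩)
      change χ (τ⁻¹ * ⟨u, hu⟩) = 1
      rw [map_mul, map_inv, h1, hτ, inv_mul_cancel]
  funext g
  rw [Ind_two τ.2 hτW h2 (lin_cl W 1), Pi.add_apply]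
  by_cases hg : g ∈ V
  · have h1 : ((τ : G)⁻¹ * g * τ) ∈ W ↔ g ∈ W := by
      rw [hmem, hmem]
      constructor
      · rintro ⟨h1, h2⟩
        refine ⟨hg, ?_⟩
        have h3 : χ (τ⁻¹ * ⟨g, hg⟩ * τ) = 1 := h2
        rwa [map_mul, map_mul, map_inv, mul_comm, mul_inv_cancel_left] at h3
      · rintro ⟨_, h2⟩
        refine ⟨(τ⁻¹ * ⟨g, hg⟩ * τ : V).2, ?_⟩
        change χ (τ⁻¹ * ⟨g, hg⟩ * τ) = 1
        rw [map_mul, map_mul, map_inv, h2, mul_one, inv_mul_cancel]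
    rw [lin_mem 1 hg, lin_mem χ hg]
    rcases hval ⟨g, hg⟩ with h2 | h2
    · have h3 : g ∈ W := (hmem g).2 ⟨hg, h2⟩
      rw [lin_mem 1 h3, lin_mem 1 (h1.2 h3), h2]
      rfl
    · have h3 : g ∉ W := by
        intro h3
        obtain ⟨_, h4⟩ := (hmem g).1 h3
        exact neg_ne (h2.symm.trans h4)
      rw [lin_not 1 h3, lin_not 1 (fun h4 => h3 (h1.1 h4)), h2]
      simp
  · have h1 : g ∉ W := fun h1 => hg (hWV h1)
    have h2 : ((τ : G)⁻¹ * g * τ) ∉ W := by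
      intro h2
      apply hg
      have h3 := V.mul_mem (V.mul_mem τ.2 (hWV h2)) (V.inv_mem τ.2)
      have h4 : (τ : G) * ((τ : G)⁻¹ * g * τ) * (τ : G)⁻¹ = g := by group
      rwa [h4] at h3
    rw [lin_not 1 h1, lin_not 1 h2, lin_not 1 hg, lin_not χ hg]

end groups

variable {D : IntermediateField ℚ Qb → (GQ → ℂ) → ℂˣ}

lemma triv_eq (K : Sub) : triv K = lin (GK K) 1 := by
  funext g
  rw [triv, lin]
  split_ifs <;> simp

lemma openKer_one {V : Subgroup GQ} (hV : IsOpen (V : Set GQ)) : OpenKer (1 : V →* ℂˣ) := by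
  refine openKer_of _ hV fun g hg => ⟨hg, rfl⟩

lemma IsBorel.triv' (h : IsBorel D) {K : Sub} (hK : IsNF K) : D K (lin (GK K) 1) = 1 := by
  rw [← triv_eq]
  exact h.triv K hK

/-- **Quadratic characters.** -/
theorem IsBorel.isDefect (h : IsBorel D) : IsDefect D := by
  refine ⟨h.add, h.ind, ?_⟩
  rintro K hK f ⟨⟨χ, hχ, rfl⟩, hf⟩
  have hV : IsOpen (GK K : Set GQ) := GK_open hK
  have hval : ∀ u : GK K, χ u = 1 ∨ χ u = -1 := by
    intro u
    have h1 := hf u u.2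
    rw [lin_mem χ u.2, sq_eq_one_iff] at h1
    rcases h1 with h1 | h1
    · exact Or.inl (Units.ext h1)
    · exact Or.inr (Units.ext (by rw [h1]; simp))
  by_cases hex : ∃ τ : GK K, χ τ = -1
  · obtain ⟨τ, hτ⟩ := hex
    have hind := ind_ker hval hτ
    -- the kernel
    set W : Subgroup GQ := χ.ker.map (GK K).subtype with hW
    have hWo : IsOpen (W : Set GQ) := hχ
    have hWV : W ≤ GK K := fun g hg => ((mem_kerMap' χ g).1 hg).1
    have hG : GK (fixedField W) = W := fixing_fixed hWo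
    have h1 := h.ind K (fixedField W) (finite_fixed hWo) (by
      rw [← fixed_GK K]
      exact fixed_mono hV hWV) (lin W 1) (by
        change lin W 1 ∈ VC (GK _)
        rw [hG]
        exact lin_vc (openKer_one hWo))
    have h2 : D (fixedField W) (lin W 1) = 1 := by
      have h3 := h.triv' (K := fixedField W) (finite_fixed hWo)
      rwa [hG] at h3
    rw [IndK, hG, hind, h2, h.add K hK _ (lin_vc (openKer_one hV)) _ (lin_vc hχ), h.triv' hK, one_mul] at h1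
    exact h1
  · have h1 : χ = 1 := by
      apply MonoidHom.ext
      intro u
      exact (hval u).resolve_right fun h2 => hex ⟨u, h2⟩
    rw [h1]
    exact h.triv' hK

lemma one_mem_TD (h : IsBorel D) {V : Subgroup GQ} (hV : IsOpen (V : Set GQ)) : lin V 1 ∈ TD D V := by
  refine TD_lin h.isDefect hV (openKer_one hV) fun K hK hKV => ?_
  subst hKV
  exact h.triv' hK

end Pool.Agent.N770.BK
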