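import Pool.Agent.N770.BK.Borel
import Pool.Agent.N770.BK.Aff

/-!
# Kummer characters given by cocycles
-/

set_option autoImplicit false

namespace Pool.Agent.N770.BK

open Pool.Agent.N770.SK
open IntermediateField

variable {D : IntermediateField ℚ Qb → (GQ → ℂ) → ℂˣ}

/-- permutation characters have trivial defect -/
lemma pi_mem_TD (h : IsBorel D) {V A : Subgroup GQ} (hV : IsOpen (V : Set GQ)) (hA : IsOpen (A : Set GQ))
    (Y : Type) [MulAction V Y] [Finite Y] (htriv : ∀ g ∈ A, ∃ hg : g ∈ V, ∀ y : Y, (⟨g, hg⟩ : V) • y = y) :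
    pi V Y ∈ TD D V := by
  classical
  let _ : Fintype Y := Fintype.ofFinite Y
  let _ : Fintype (MulAction.orbitRel.Quotient V Y) := Fintype.ofFinite _
  have h1 : pi V Y * lin V 1 = pi V Y := by
    funext g
    rw [Pi.mul_apply]
    by_cases hg : g ∈ V
    · rw [lin_mem 1 hg]
      simp
    · rw [pi, dif_neg hg, zero_mul]
  rw [← h1, pi_mul]
  refine AddSubgroup.sum_mem _ fun ω _ => ?_
  have hS : IsOpen (stab V ω.out : Set GQ) := by
    refine Subgroup.isOpen_mono (H₁ := A) ?_ hA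
    intro g hg
    obtain ⟨h2, h3⟩ := htriv g hg
    exact (mem_stab (⟨g, h2⟩ : V)).2 (h3 ω.out)
  have h2 : (res (stab_le V ω.out) (1 : V →* ℂˣ)) = 1 := rfl
  rw [h2]
  exact TD_ind h.isDefect V _ hV hS (stab_le V ω.out) _ (lin_cl _ _) (one_mem_TD h hS)

/-- **Kummer characters given by cocycles.** -/
theorem cocycle (h : IsBorel D) {V : Subgroup GQ} (hV : IsOpen (V : Set GQ)) {n : ℕ} [NeZero n]
    {κ : V →* (ZMod n)ˣ} {c : V → ZMod n} (hc : Coc κ c) (hκ : Function.Surjective κ) {z : ℂ}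
    (hz : IsPrimitiveRoot z n) {χ : kerS κ →* ℂˣ} (hχo : OpenKer χ)
    (hχ : ∀ g : V, κ g = 1 → lin (kerS κ) χ g = z ^ (c g).val) :
    D (fixedField (kerS κ)) (lin (kerS κ) χ) = 1 := by
  have hW : IsOpen (kerS κ : Set GQ) := hχo.isOpen
  have hpi : ∀ {m : ℕ} (hm0 : 0 < m) (hm : m ∣ n), pim hc hm ∈ TD D V := by
    intro m hm0 hm
    have _ : NeZero m := ⟨hm0.ne'⟩
    let _ := act hc hm
    refine pi_mem_TD h hV (A := χ.ker.map (kerS κ).subtype) hχo (ZMod m) ?_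
    intro g hg
    obtain ⟨h1, h2⟩ := (mem_kerMap' χ g).1 hg
    obtain ⟨h3, h4⟩ := mem_kerS.1 h1
    refine ⟨h3, fun y => ?_⟩
    change ZMod.castHom hm (ZMod m) ((κ ⟨g, h3⟩ : (ZMod n)ˣ) : ZMod n) * y +
      ZMod.castHom hm (ZMod m) (c ⟨g, h3⟩) = y
    have h5 := hχ ⟨g, h3⟩ h4
    rw [lin_mem χ h1, h2, Units.val_one] at h5
    have h6 : c ⟨g, h3⟩ = 0 := by
      have h7 := hz.dvd_of_pow_eq_one _ h5.symm
      have h8 : (c ⟨g, h3⟩).val = 0 := Nat.eq_zero_of_dvd_of_lt h7 (ZMod.val_lt _)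
      exact (ZMod.val_eq_zero _).1 h8
    rw [h4, h6, Units.val_one, map_one, map_zero, one_mul, add_zero]
  have hmem : Ind V (kerS κ) (lin (kerS κ) χ) ∈ TD D V := by
    rw [ind_eq hc hκ hz hχ]
    refine AddSubgroup.sum_mem _ fun x _ => ?_
    exact AddSubgroup.zsmul_mem _ (hpi (Nat.pos_of_mem_divisors
        (Nat.snd_mem_divisors_of_mem_antidiagonal x.2)) _) _
  have h1 := ((mem_TD h.isDefect hV).1 hmem).2
  have hG : GK (fixedField V) = V := fixing_fixed hV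
  have hG' : GK (fixedField (kerS κ)) = kerS κ := fixing_fixed hW
  have h2 := h.ind (fixedField V) (fixedField (kerS κ)) (finite_fixed hW) (fixed_mono hV kerS_le)
    (lin (kerS κ) χ) (by
      change lin _ χ ∈ VC (GK _)
      rw [hG']
      exact lin_vc hχo)
  rw [IndK, hG, hG'] at h2
  rw [← h2, h1]

end Pool.Agent.N770.BK
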