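import Pool.Agent.N770.SK.Base

/-!
# Defect functions which are trivial on the trivial characters
-/

set_option autoImplicit false

namespace Pool.Agent.N770.BK

open Pool.Agent.N770.SK

/-- the trivial character of `Gal(Qb/K)`, extended by zero to `GQ` -/
noncomputable def triv (K : Sub) (g : GQ) : ℂ := open Classical in if g ∈ GK K then 1 else 0

/-- A defect function `D`: it gives a non-zero complex number `D K θ` for every number field `K` in
`Qb` and every virtual character `θ` of `Gal(Qb/K)`. It is multiplicative in `θ`, invariant under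
induction, and trivial on the trivial characters. -/
structure IsBorel (D : Sub → (GQ → ℂ) → ℂˣ) : Prop where
  add : ∀ K, IsNF K → ∀ θ, IsVirt K θ → ∀ θ', IsVirt K θ' → D K (θ + θ') = D K θ * D K θ'
  ind : ∀ K K', IsNF K' → K ≤ K' → ∀ θ, IsVirt K' θ → D K (IndK K K' θ) = D K' θ
  triv : ∀ K, IsNF K → D K (triv K) = 1

section groups

variable {G : Type} [Group G]

/-- `c` is a cocycle of `V` with values in `ℤ/n`, on which `V` acts by multiplication by `κ` -/
def IsCocycle {V : Subgroup G} {n : ℕ} (κ : V →* (ZMod n)ˣ) (c : V → ZMod n) : Prop :=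
  ∀ g h, c (g * h) = c g + ((κ g : (ZMod n)ˣ) : ZMod n) * c h

/-- `W` is the kernel of the homomorphism `κ` of `V` onto `(ℤ/n)ˣ`-/
def IsKernel {V : Subgroup G} {n : ℕ} (κ : V →* (ZMod n)ˣ) (W : Subgroup G) : Prop :=
  Function.Surjective κ ∧ ∀ g, g ∈ W ↔ ∃ h : g ∈ V, κ ⟨g, h⟩ = 1

/-- `f` is trivial on the common kernel in `W` of finitely many cocycles `c i` of `V` with values in `ℤ/n`, where
`V` acts on `ℤ/n` by multiplication by `κ`, a homomorphism onto `(ℤ/n)ˣ` with the kernel `W` -/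
def AffineOn (n : ℕ) (V W : Subgroup G) (f : G → ℂ) : Prop :=
  ∃ κ : V →* (ZMod n)ˣ, IsKernel κ W ∧ ∃ (r : ℕ) (c : Fin r → V → ZMod n), (∀ i, IsCocycle κ (c i)) ∧
    ∀ g : V, κ g = 1 → (∀ i, c i g = 0) → f g = 1

end groups

/-- `f` is trivial on the common kernel, in `Gal(Qb/K)`, of finitely many cocycles of `Gal(Qb/K₀)` with
values in `ℤ/n`, on which `Gal(Qb/K₀)` acts by multiplication by `κ`, where `κ` is a homomorphism onto `(ℤ/n)ˣ`
with the kernel `Gal(Qb/K)` -/
def IsAffine (n : ℕ) (K₀ K : Sub) (f : GQ → ℂ) : Prop := AffineOn n (GK K₀) (GK K) f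

/-- `K = K₀(ζ)`, where `ζ` is a primitive `n`-th root of unity of degree `φ(n)` over `K₀` -/
def IsCyclotomic (n : ℕ) (K₀ K : Sub) : Prop :=
  Irreducible (Polynomial.cyclotomic n K₀) ∧ ∃ ζ : Qb, IsPrimitiveRoot ζ n ∧
    K = K₀ ⊔ IntermediateField.adjoin ℚ {ζ}

/-- `f` is trivial on the elements of `Gal(Qb/K)` which fix `β₁, ..., β_r` -/
def TrivialOver (K : Sub) {r : ℕ} (β : Fin r → Qb) (f : GQ → ℂ) : Prop :=
  ∀ g ∈ GK K, (∀ i, g (β i) = β i) → f g = 1

/-- `K = K₀(ζ)`, where `ζ` is a primitive `n`-th root of unity of degree `φ(n)` over `K₀`, and `f` is trivial on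
`Gal(Qb/L)`, where `L = K(β₁, ..., β_r)` with `β_i ^ n ∈ K₀` -/
def IsKummer (n : ℕ) (K₀ K : Sub) (f : GQ → ℂ) : Prop :=
  IsCyclotomic n K₀ K ∧ ∃ (r : ℕ) (β : Fin r → Qb), (∀ i, β i ^ n ∈ K₀) ∧ TrivialOver K β f

end Pool.Agent.N770.BK
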