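import Pool.Agent.N770.BK.Defs

/-!
# Defect functions which are trivial on the critical characters
-/

set_option autoImplicit false

namespace Pool.Agent.N770.BK

open Pool.Agent.N770.SK

/-- `K` is totally real -/
def TotReal (K : Sub) : Prop := ∀ (φ : K →+* ℂ) (x : K), (φ x).im = 0

/-- `f` is a one-dimensional character of `Gal(Qb/K)`, where `K` is totally real, with `f(c) = s` for all
complex conjugations `c`, where `s` is `1` or `-1` -/
def Critical (s : ℤˣ) (K : Sub) (f : GQ → ℂ) : Prop :=
  TotReal K ∧ IsOneDim K f ∧ ∀ c ∈ CC, f c = (s : ℤ)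

/-- A defect function which is trivial on the trivial characters and on the critical characters of sign `s`. -/
structure IsBeilinson (s : ℤˣ) (D : Sub → (GQ → ℂ) → ℂˣ) : Prop where
  borel : IsBorel D
  crit : ∀ K, IsNF K → ∀ f, Critical s K f → D K f = 1

/-- `s` is a choice of signs at the real places of `K`: `s c` says that the sign is `-1` at the real place with the
complex conjugation `c` -/
def IsSigns (K : Sub) (s : GQ → Prop) : Prop :=
  ∀ c ∈ CC, c ∈ GK K → ∀ v ∈ GK K, s c → s (v * c * v⁻¹)

/-- `f` is a one-dimensional character of `Gal(Qb/K)` of `2`-power order with the signs `s` at the real places -/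
def HasSigns (K : Sub) (s : GQ → Prop) (f : GQ → ℂ) : Prop :=
  IsOneDim K f ∧ (∃ k : ℕ, ∀ g ∈ GK K, f g ^ 2 ^ k = 1) ∧ ∀ c ∈ CC, c ∈ GK K → (f c = -1 ↔ s c)

end Pool.Agent.N770.BK
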