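import Pool.Agent.N770.BK.Coc

/-!
# Characters which are trivial on the common kernel of several cocycles
-/

set_option autoImplicit false

namespace Pool.Agent.N770.BK

open Pool.Agent.N770.SK
open IntermediateField

section groups

variable {G : Type} [Group G] {V : Subgroup G} {n : ℕ} [NeZero n]

/-- powers of roots of unity with exponents in `ZMod n` -/
lemma pow_val_add {z : ℂ} (hz : z ^ n = 1) (a b : ZMod n) : z ^ (a + b).val = z ^ a.val * z ^ b.val := by
  rw [ZMod.val_add, ← pow_add]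
  conv_rhs => rw [← Nat.mod_add_div (a.val + b.val) n, pow_add, pow_mul z n, hz, one_pow, mul_one]

lemma pow_val_sum {z : ℂ} (hz : z ^ n = 1) {r : ℕ} (s : Finset (Fin r)) (v : Fin r → ZMod n) :
    z ^ (∑ i ∈ s, v i).val = ∏ i ∈ s, z ^ (v i).val := by
  classical
  induction s using Finset.induction_on with
  | empty => simp
  | insert i s hi ih => rw [Finset.sum_insert hi, Finset.prod_insert hi, pow_val_add hz, ih]

/-- the characters of `(ZMod n) ^ r` -/
lemma char_pi {z : ℂ} (hz : IsPrimitiveRoot z n) {r : ℕ} (Ψ : Multiplicative (Fin r → ZMod n) →* ℂˣ) :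
    ∃ a : Fin r → ZMod n, ∀ v : Fin r → ZMod n,
      ((Ψ (Multiplicative.ofAdd v) : ℂˣ) : ℂ) = z ^ (∑ i, a i * v i).val := by
  classical
  have hn : 0 < n := NeZero.pos n
  have h1 : ∀ i : Fin r, ∃ b : ℕ, z ^ b = ((Ψ (Multiplicative.ofAdd (Pi.single i 1)) : ℂˣ) : ℂ) := by
    intro i
    obtain ⟨b, _, hb⟩ := hz.eq_pow_of_pow_eq_one (ξ := ((Ψ (Multiplicative.ofAdd (Pi.single i 1)) : ℂˣ) : ℂ)) (by
      rw [← Units.val_pow_eq_pow_val, ← map_pow, ← ofAdd_nsmul]
      have h2 : n • (Pi.single i 1 : Fin r → ZMod n) = 0 := by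
        rw [← Pi.single_smul]
        simp
      rw [h2, ofAdd_zero, map_one, Units.val_one])
    exact ⟨b, hb⟩
  choose b hb using h1
  refine ⟨fun i => (b i : ZMod n), fun v => ?_⟩
  have h2 : v = ∑ i, (v i).val • (Pi.single i 1 : Fin r → ZMod n) := by
    conv_lhs => rw [← Finset.univ_sum_single v]
    refine Finset.sum_congr rfl fun i _ => ?_
    rw [← Pi.single_smul]
    simp
  have h3 : Multiplicative.ofAdd v = ∏ i, (Multiplicative.ofAdd (Pi.single i 1 : Fin r → ZMod n)) ^ (v i).val := by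
    conv_lhs => rw [h2]
    rw [ofAdd_sum]
    rfl
  rw [h3, map_prod, Units.coe_prod, pow_val_sum hz.pow_eq_one]
  refine Finset.prod_congr rfl fun i _ => ?_
  rw [map_pow, Units.val_pow_eq_pow_val, ← hb i, pow_val_mul hz.pow_eq_one]
  congr 1
  rw [ZMod.val_natCast, ← Nat.mod_add_div (b i) n, pow_add, pow_mul z n, hz.pow_eq_one, one_pow, mul_one,
    Nat.mod_add_div]

lemma exists_cocycle {κ : V →* (ZMod n)ˣ} {r : ℕ} {c : Fin r → V → ZMod n} (hc : ∀ i, Coc κ (c i))
    {χ : kerS κ →* ℂˣ} (ht : ∀ g : V, κ g = 1 → (∀ i, c i g = 0) → lin (kerS κ) χ g = 1) {z : ℂ}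
    (hz : IsPrimitiveRoot z n) :
    ∃ a : Fin r → ZMod n, ∀ g : V, κ g = 1 → lin (kerS κ) χ g = z ^ (∑ i, a i * c i g).val := by
  have hn : 0 < n := NeZero.pos n
  have hk : ∀ w : kerS κ, κ (Subgroup.inclusion kerS_le w) = 1 := by
    intro w
    obtain ⟨_, h2⟩ := mem_kerS.1 w.2
    exact h2
  let Φ : kerS κ →* Multiplicative (Fin r → ZMod n) :=
    { toFun := fun w => Multiplicative.ofAdd (fun i => c i (Subgroup.inclusion kerS_le w))
      map_one' := by
        rw [map_one]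
        have h1 : (fun i => c i 1) = 0 := funext fun i => (hc i).one
        rw [h1]
        rfl
      map_mul' := by
        intro w w'
        rw [map_mul, ← ofAdd_add]
        congr 1
        funext i
        rw [hc i, hk, Units.val_one, one_mul]
        rfl }
  have hker : Φ.rangeRestrict.ker ≤ χ.ker := by
    intro w hw
    rw [MonoidHom.mem_ker] at hw
    have h1 : Φ w = 1 := congrArg Subtype.val hw
    have h2 : (fun i => c i (Subgroup.inclusion kerS_le w)) = 0 := Multiplicative.ofAdd.injective h1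
    have h3 := ht (Subgroup.inclusion kerS_le w) (hk w) fun i => congrFun h2 i
    have h4 : ((Subgroup.inclusion kerS_le w : V) : G) = (w : G) := rfl
    rw [h4, lin_mem χ w.2] at h3
    exact Units.ext h3
  let ψ : Φ.range →* ℂˣ := (Φ.rangeRestrict.liftOfSurjective Φ.rangeRestrict_surjective) ⟨χ, hker⟩
  have hψ : ∀ w, ψ (Φ.rangeRestrict w) = χ w := by
    intro w
    exact MonoidHom.liftOfRightInverse_comp_apply _ _ _ ⟨χ, hker⟩ w
  obtain ⟨Ψ, hΨ⟩ := MonoidHom.domRestrict_surjective ℂ Φ.range ψ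
  obtain ⟨a, ha⟩ := char_pi hz Ψ
  refine ⟨a, fun g hg => ?_⟩
  have hgk : (g : G) ∈ kerS κ := mem_kerS.2 ⟨g.2, hg⟩
  rw [lin_mem χ hgk, ← ha]
  congr 1
  rw [← hψ, ← hΨ]
  rfl

end groups

variable {D : IntermediateField ℚ Qb → (GQ → ℂ) → ℂˣ}

/-- **Characters of affine type.** -/
theorem affine (h : IsBorel D) {n : ℕ} (hn : 0 < n) {K₀ K : Sub} (hK₀ : IsNF K₀) {f : GQ → ℂ}
    (hf : IsOneDim K f) (ha : IsAffine n K₀ K f) : D K f = 1 := by
  have _ : NeZero n := ⟨hn.ne'⟩
  obtain ⟨κ, ⟨hκ, hker⟩, r, c, hc, ht⟩ := ha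
  obtain ⟨χ, hχo, rfl⟩ := hf
  have hV := GK_open hK₀
  have hW : GK K = kerS κ := by
    ext g
    rw [hker, mem_kerS]
  have hz := Complex.isPrimitiveRoot_exp n hn.ne'
  have main : ∀ (W : Subgroup GQ) (χ : W →* ℂˣ), W = kerS κ → OpenKer χ →
      (∀ g : GK K₀, κ g = 1 → (∀ i, c i g = 0) → lin W χ g = 1) → D (fixedField W) (lin W χ) = 1 := by
    rintro W χ rfl hχo ht
    obtain ⟨a, ha⟩ := exists_cocycle (fun i => hc i) ht hz
    refine cocycle h hV (c := fun g => ∑ i, a i * c i g) ?_ hκ hz hχo ha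
    intro g g'
    rw [Finset.mul_sum, ← Finset.sum_add_distrib]
    refine Finset.sum_congr rfl fun i _ => ?_
    rw [hc i]
    ring
  have h1 := main (GK K) χ hW hχo ht
  rwa [fixed_GK] at h1

end Pool.Agent.N770.BK
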