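import Pool.Agent.N770.BK.Dual
import Mathlib.NumberTheory.Cyclotomic.Gal
import Mathlib.FieldTheory.Minpoly.IsConjRoot

/-!
# Kummer characters
-/

set_option autoImplicit false

namespace Pool.Agent.N770.BK

open Pool.Agent.N770.SK
open IntermediateField

/-- the exponent of a root of unity -/
lemma exists_exp {n : ℕ} [NeZero n] {ζ x : Qb} (hζ : IsPrimitiveRoot ζ n) (hx : x ^ n = 1) :
    ∃ a : ZMod n, ζ ^ a.val = x := by
  obtain ⟨i, hi, rfl⟩ := hζ.eq_pow_of_pow_eq_one hx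
  exact ⟨(i : ZMod n), by rw [ZMod.val_cast_of_lt hi]⟩

lemma exp_inj {n : ℕ} [NeZero n] {ζ : Qb} (hζ : IsPrimitiveRoot ζ n) {a b : ZMod n}
    (h : ζ ^ a.val = ζ ^ b.val) : a = b :=
  ZMod.val_injective n (hζ.pow_inj (ZMod.val_lt _) (ZMod.val_lt _) h)

lemma exp_add {n : ℕ} [NeZero n] {ζ : Qb} (hζ : IsPrimitiveRoot ζ n) (a b : ZMod n) :
    ζ ^ (a + b).val = ζ ^ a.val * ζ ^ b.val := by
  rw [ZMod.val_add, ← pow_add]
  conv_rhs => rw [← Nat.mod_add_div (a.val + b.val) n, pow_add, pow_mul ζ n, hζ.pow_eq_one, one_pow, mul_one]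

lemma exp_mul {n : ℕ} [NeZero n] {ζ : Qb} (hζ : IsPrimitiveRoot ζ n) (a b : ZMod n) :
    ζ ^ (a * b).val = (ζ ^ a.val) ^ b.val := by
  rw [ZMod.val_mul, ← pow_mul, ← Nat.mod_add_div (a.val * b.val) n, pow_add, pow_mul ζ n, hζ.pow_eq_one,
    one_pow, mul_one, Nat.mod_add_div]

lemma exp_one {n : ℕ} [NeZero n] {ζ : Qb} (hζ : IsPrimitiveRoot ζ n) : ζ ^ (1 : ZMod n).val = ζ := by
  rw [ZMod.val_one_eq_one_mod]
  conv_rhs => rw [← pow_one ζ, ← Nat.mod_add_div 1 n, pow_add, pow_mul ζ n, hζ.pow_eq_one, one_pow, mul_one]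

/-- the elements of `Gal(Qb/K₀(ζ))` -/
lemma mem_GK_sup {K₀ : Sub} {ζ : Qb} (g : GQ) :
    g ∈ GK (K₀ ⊔ IntermediateField.adjoin ℚ {ζ}) ↔ g ∈ GK K₀ ∧ g ζ = ζ := by
  rw [GK, IntermediateField.fixingSubgroup_sup, Subgroup.mem_inf]
  refine and_congr Iff.rfl ?_
  constructor
  · intro h
    exact (IntermediateField.mem_fixingSubgroup_iff _ _).1 h ζ (IntermediateField.mem_adjoin_simple_self ℚ ζ)
  · intro h
    have h1 : IntermediateField.adjoin ℚ {ζ} ≤ fixedField (Subgroup.zpowers g) := by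
      rw [IntermediateField.adjoin_simple_le_iff]
      rintro ⟨x, k, rfl⟩
      change (g ^ k) ζ = ζ
      have h2 : g ∈ MulAction.stabilizer GQ ζ := h
      exact (MulAction.stabilizer GQ ζ).zpow_mem h2 k
    rw [IntermediateField.mem_fixingSubgroup_iff]
    intro x hx
    exact h1 hx ⟨g, Subgroup.mem_zpowers g⟩

/-- the cyclotomic character is surjective -/
lemma exists_aut {n : ℕ} [NeZero n] {K₀ : Sub} (hirr : Irreducible (Polynomial.cyclotomic n K₀))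
    {ζ : Qb} (hζ : IsPrimitiveRoot ζ n) (u : (ZMod n)ˣ) :
    ∃ g ∈ GK K₀, g ζ = ζ ^ (u : ZMod n).val := by
  have _ : Algebra.IsAlgebraic K₀ Qb := Algebra.IsAlgebraic.tower_top (K := ℚ) K₀
  have _ : IsAlgClosure K₀ Qb := ⟨inferInstance, inferInstance⟩
  have _ : Normal K₀ Qb := IsAlgClosure.normal K₀ Qb
  have hζ' : IsPrimitiveRoot (ζ ^ (u : ZMod n).val) n :=
    hζ.pow_of_coprime _ (ZMod.val_coe_unit_coprime u)
  have _ : NeZero ((n : ℕ) : K₀) := ⟨Nat.cast_ne_zero.2 (NeZero.ne n)⟩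
  have h1 := hζ.minpoly_eq_cyclotomic_of_irreducible hirr
  have h2 := hζ'.minpoly_eq_cyclotomic_of_irreducible hirr
  have h3 : IsConjRoot K₀ (ζ ^ (u : ZMod n).val) ζ := h2.symm.trans h1
  obtain ⟨σ, hσ⟩ := isConjRoot_iff_exists_algEquiv.1 h3
  refine ⟨σ.restrictScalars ℚ, ?_, hσ⟩
  rw [IntermediateField.mem_fixingSubgroup_iff]
  intro x hx
  exact σ.commutes ⟨x, hx⟩

/-- **Kummer characters are of affine type.** -/
theorem affine_of_kummer {n : ℕ} (hn : 0 < n) {K₀ K : Sub} {f : GQ → ℂ} (h : IsKummer n K₀ K f) :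
    IsAffine n K₀ K f := by
  have _ : NeZero n := ⟨hn.ne'⟩
  obtain ⟨⟨hirr, ζ, hζ, rfl⟩, r, β, hβ, hf⟩ := h
  let κ : GK K₀ →* (ZMod n)ˣ := (hζ.autToPow ℚ).comp (GK K₀).subtype
  have hκ : ∀ g : GK K₀, ζ ^ ((κ g : (ZMod n)ˣ) : ZMod n).val = (g : GQ) ζ := fun g =>
    hζ.autToPow_spec ℚ (g : GQ)
  have hfix : ∀ (g : GK K₀) (x : Qb), x ∈ K₀ → (g : GQ) x = x := fun g x hx =>
    (IntermediateField.mem_fixingSubgroup_iff _ _).1 g.2 x hx
  have hex : ∀ (i : Fin r) (g : GK K₀), ∃ a : ZMod n, (g : GQ) (β i) = ζ ^ a.val * β i := by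
    intro i g
    by_cases h0 : β i = 0
    · exact ⟨0, by rw [h0, map_zero, mul_zero]⟩
    · obtain ⟨a, ha⟩ := exists_exp (x := (g : GQ) (β i) / β i) hζ (by
        rw [div_pow, ← map_pow, hfix g _ (hβ i), div_self (pow_ne_zero _ h0)])
      exact ⟨a, by rw [ha, div_mul_cancel₀ _ h0]⟩
  choose c₀ hc₀ using hex
  let c : Fin r → GK K₀ → ZMod n := fun i g => open Classical in if β i = 0 then 0 else c₀ i g
  have hc : ∀ i (g : GK K₀), (g : GQ) (β i) = ζ ^ (c i g).val * β i := by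
    intro i g
    by_cases h0 : β i = 0
    · rw [h0, map_zero, mul_zero]
    · have h1 : c i g = c₀ i g := if_neg h0
      rw [h1]
      exact hc₀ i g
  refine ⟨κ, ⟨?_, ?_⟩, r, c, ?_, ?_⟩
  · intro u
    obtain ⟨g, hg, hgu⟩ := exists_aut hirr hζ u
    refine ⟨⟨g, hg⟩, Units.ext (exp_inj hζ ?_)⟩
    rw [hκ]
    exact hgu
  · intro g
    rw [mem_GK_sup]
    constructor
    · rintro ⟨h1, h2⟩
      refine ⟨h1, Units.ext (exp_inj hζ ?_)⟩
      rw [hκ, Units.val_one, exp_one hζ]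
      exact h2
    · rintro ⟨h1, h2⟩
      refine ⟨h1, ?_⟩
      have h3 := hκ ⟨g, h1⟩
      rw [h2, Units.val_one, exp_one hζ] at h3
      exact h3.symm
  · intro i g h
    by_cases h0 : β i = 0
    · have h1 : ∀ g, c i g = 0 := fun g => if_pos h0
      rw [h1, h1, h1, mul_zero, add_zero]
    · apply exp_inj hζ
      apply mul_right_cancel₀ h0
      rw [← hc, exp_add hζ, exp_mul hζ, hκ]
      have h1 : ((g * h : GK K₀) : GQ) (β i) = (g : GQ) ((h : GQ) (β i)) := rfl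
      rw [h1, hc i h, map_mul, map_pow, hc i g]
      ring
  · intro g hg h1
    refine hf g ?_ ?_
    · rw [mem_GK_sup]
      refine ⟨g.2, ?_⟩
      have h3 := hκ g
      rw [hg, Units.val_one, exp_one hζ] at h3
      exact h3.symm
    · intro i
      rw [hc, h1 i, ZMod.val_zero, pow_zero, one_mul]

end Pool.Agent.N770.BK
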