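import Pool.Agent.N770.BK.Defs2
import Pool.Agent.N770.BK.Borel

/-!
# The reduction to totally complex fields with critical characters
-/

set_option autoImplicit false

namespace Pool.Agent.N770.BK

open Pool.Agent.N770.SK
open IntermediateField

variable {D : IntermediateField ℚ Qb → (GQ → ℂ) → ℂˣ}

lemma cc_mem {K : Sub} (hK : TotReal K) {c : GQ} (hc : c ∈ CC) : c ∈ GK K := by
  obtain ⟨φ, hφ⟩ := hc
  rw [IntermediateField.mem_fixingSubgroup_iff]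
  intro x hx
  rw [real_iff hφ]
  exact hK (φ.comp (algebraMap K Qb)) ⟨x, hx⟩

/-- the values at complex conjugations -/
lemma val_cc {V : Subgroup GQ} (χ : V →* ℂˣ) {c : GQ} (hc : c ∈ CC) (h : c ∈ V) :
    χ ⟨c, h⟩ = 1 ∨ χ ⟨c, h⟩ = -1 := by
  have h1 : (⟨c, h⟩ : V) * ⟨c, h⟩ = 1 := Subtype.ext (realSet_cc.sq c hc)
  have h2 : χ ⟨c, h⟩ * χ ⟨c, h⟩ = 1 := by rw [← map_mul, h1, map_one]
  have h3 : ((χ ⟨c, h⟩ : ℂˣ) : ℂ) ^ 2 = 1 := by rw [sq, ← Units.val_mul, h2, Units.val_one]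
  rcases sq_eq_one_iff.1 h3 with h4 | h4
  · exact Or.inl (Units.ext h4)
  · exact Or.inr (Units.ext (by rw [h4]; simp))

lemma qc_neg : qc (-1) = (-1 : ℂˣ) := by
  apply Units.ext
  rw [qc_val]
  simp

/-- twisting to prescribed signs -/
lemma exists_twist {V : Subgroup GQ} (hV : IsOpen (V : Set GQ)) {χ : V →* ℂˣ}
    {s : GQ → Prop} (hs : ∀ c ∈ CC, c ∈ V → ∀ v ∈ V, s c → s (v * c * v⁻¹)) :
    ∃ α : V →* ℤˣ, OpenKer α ∧ ∀ c ∈ CC, ∀ h : c ∈ V, ((χ * qc.comp α) ⟨c, h⟩ = -1 ↔ s c) := by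
  obtain ⟨α, hα, hα2⟩ := realSet_cc.sign V hV (fun c => ∃ h : c ∈ V, ¬ (χ ⟨c, h⟩ = -1 ↔ s c)) (by
    rintro c hc hcV v hv ⟨_, h1⟩
    have hvc : v * c * v⁻¹ ∈ V := V.mul_mem (V.mul_mem hv hcV) (V.inv_mem hv)
    refine ⟨hvc, fun h2 => h1 ?_⟩
    have h3 : χ ⟨v * c * v⁻¹, hvc⟩ = χ ⟨c, hcV⟩ := by
      have h4 : (⟨v * c * v⁻¹, hvc⟩ : V) = ⟨v, hv⟩ * ⟨c, hcV⟩ * ⟨v, hv⟩⁻¹ := rfl
      rw [h4, map_mul, map_mul, map_inv, mul_comm (χ ⟨v, hv⟩), mul_inv_cancel_right]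
    rw [h3] at h2
    rw [h2]
    constructor
    · intro h4
      have h5 := hs _ (realSet_cc.conj c hc v) hvc v⁻¹ (V.inv_mem hv) h4
      have h6 : v⁻¹ * (v * c * v⁻¹) * v⁻¹⁻¹ = c := by group
      rwa [h6] at h5
    · exact hs c hc hcV v hv)
  refine ⟨α, hα, fun c hc h => ?_⟩
  have h1 := hα2 c hc h
  have hne : (1 : ℂˣ) ≠ -1 := fun h => neg_ne h.symm
  have hne' : (1 : ℤˣ) ≠ -1 := by decide
  rw [MonoidHom.mul_apply, MonoidHom.comp_apply]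
  rcases Int.units_eq_one_or (α ⟨c, h⟩) with h2 | h2
  · rw [h2, map_one, mul_one]
    by_contra h3
    exact hne' (h2.symm.trans (h1.2 ⟨h, h3⟩))
  · rw [h2, qc_neg]
    obtain ⟨_, h3⟩ := h1.1 h2
    rcases val_cc χ hc h with h4 | h4
    · rw [h4] at h3 ⊢
      have h5 : s c := by
        by_contra h6
        exact h3 ⟨fun h7 => absurd h7 hne, fun h7 => absurd h7 h6⟩
      simp [h5]
    · rw [h4] at h3 ⊢
      have h5 : ¬ s c := fun h6 => h3 ⟨fun _ => h6, fun _ => rfl⟩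
      have h6 : (-1 : ℂˣ) * -1 = 1 := by simp
      rw [h6]
      exact ⟨fun h7 => absurd h7 hne, fun h7 => absurd h7 h5⟩

lemma sq_twist {V : Subgroup GQ} (χ : V →* ℂˣ) (α : V →* ℤˣ) :
    lin V (χ * qc.comp α) ^ 2 = lin V χ ^ 2 := by
  rw [lin_mul, mul_pow]
  funext g
  rw [Pi.mul_apply, Pi.pow_apply, Pi.pow_apply]
  by_cases hg : g ∈ V
  · have h1 : lin V (qc.comp α) g ^ 2 = 1 := by
      rw [lin_mem _ hg, ← Units.val_pow_eq_pow_val, MonoidHom.comp_apply, qc_sq, Units.val_one]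
    rw [h1, mul_one]
  · rw [lin_not χ hg]
    ring

lemma openKer_twist {V : Subgroup GQ} {χ : V →* ℂˣ} {α : V →* ℤˣ} (hχ : OpenKer χ) (hα : OpenKer α) :
    OpenKer (χ * qc.comp α) := hχ.mul (hα.comp qc)

/-- **The reduction.** -/
theorem beilinson_complex {s : ℤˣ} (h : IsBeilinson s D) (hc : TrivialComplex D) (K : Sub) (hK : IsNF K) :
    (TotReal K → ∀ f, IsOneDim K f → D K f = 1) ∧
    (∀ θ, IsVirt K θ → D K θ = 1 ∨ D K θ = -1) ∧ (∀ θ, IsNotFour K θ → D K θ = 1) ∧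
    (∀ f, IsOneDim K f → ∀ f', IsOneDim K f' → f ^ 2 = f' ^ 2 → D K f = D K f') ∧
    (∀ s', IsSigns K s' → (∀ f, HasSigns K s' f → D K f = 1) → ∀ f, IsOneDim K f → D K f = 1) := by
  have hKo := GK_open hK
  obtain ⟨h1, h2, h3, h4, -⟩ := defect_complex h.borel.isDefect hc K hK
  refine ⟨?_, h1, h2, h3, ?_⟩
  · rintro hreal _ ⟨χ, hχ, rfl⟩
    obtain ⟨α, hα, hα2⟩ := exists_twist (χ := χ) hKo (s := fun _ => s = -1) (fun _ _ _ _ _ h => h)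
    have h5 := openKer_twist hχ hα
    rw [← h3 _ ⟨_, h5, rfl⟩ _ ⟨χ, hχ, rfl⟩ (sq_twist χ α)]
    refine h.crit K hK _ ⟨hreal, ⟨_, h5, rfl⟩, fun c hc => ?_⟩
    have hcK : c ∈ GK K := cc_mem hreal hc
    rw [lin_mem _ hcK]
    have h6 := hα2 c hc hcK
    rcases Int.units_eq_one_or s with hs | hs
    · have h7 : (χ * qc.comp α) ⟨c, hcK⟩ ≠ -1 := by
        intro h8
        have h9 := h6.1 h8
        rw [hs] at h9
        exact absurd h9 (by decide)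
      rw [(val_cc _ hc hcK).resolve_right h7, hs]
      simp
    · rw [h6.2 hs, hs]
      simp
  · intro s' hs' H
    refine h4 ?_
    rintro f ⟨⟨χ, hχ, rfl⟩, ⟨k, hk⟩, hfc⟩
    obtain ⟨α, hα, hα2⟩ := exists_twist (χ := χ) hKo hs'
    have h5 := openKer_twist hχ hα
    rw [← h3 _ ⟨_, h5, rfl⟩ _ ⟨χ, hχ, rfl⟩ (sq_twist χ α)]
    refine H _ ⟨⟨_, h5, rfl⟩, ⟨k + 1, fun g hg => ?_⟩, fun c hc hcK => ?_⟩
    · rw [pow_succ', pow_mul]
      have h6 := congrFun (sq_twist χ α) g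
      rw [Pi.pow_apply, Pi.pow_apply] at h6
      rw [h6, ← pow_mul, mul_comm, pow_mul, hk g hg, one_pow]
    · rw [← hα2 c hc hcK, lin_mem _ hcK]
      constructor
      · intro h6
        exact Units.ext (by rw [h6]; simp)
      · intro h6
        rw [h6]
        simp

end Pool.Agent.N770.BK
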