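import Mathlib

/-!
# Numbers of fixed points of affine maps and sums over primitive roots of unity
-/

set_option autoImplicit false

namespace Pool.Agent.N770.BK

open Finset Polynomial

/-- the sum of the `a`-th powers of the `m`-th roots of unity -/
lemma sum_roots {m : ℕ} (hm : 0 < m) (a : ℕ) :
    ∑ ζ ∈ nthRootsFinset m (1 : ℂ), ζ ^ a = if m ∣ a then (m : ℂ) else 0 := by
  have h0 : IsPrimitiveRoot (Complex.exp (2 * Real.pi * Complex.I / m)) m :=
    Complex.isPrimitiveRoot_exp m hm.ne'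
  set z := Complex.exp (2 * Real.pi * Complex.I / m) with hz
  split_ifs with h
  · obtain ⟨b, rfl⟩ := h
    rw [Finset.sum_congr rfl (fun ζ hζ => by
      rw [pow_mul, (mem_nthRootsFinset hm 1).1 hζ, one_pow]), Finset.sum_const, h0.card_nthRootsFinset,
      nsmul_eq_mul, mul_one]
  · have hz0 : z ≠ 0 := h0.ne_zero hm.ne'
    have h1 : ∑ ζ ∈ nthRootsFinset m (1 : ℂ), ζ ^ a =
        ∑ ζ ∈ nthRootsFinset m (1 : ℂ), (z * ζ) ^ a := by
      symm
      refine Finset.sum_bij (fun ζ _ => z * ζ) ?_ ?_ ?_ (fun ζ _ => rfl)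
      · intro ζ hζ
        rw [mem_nthRootsFinset hm] at hζ ⊢
        rw [mul_pow, h0.pow_eq_one, hζ, one_mul]
      · intro ζ _ ζ' _ h2
        exact mul_left_cancel₀ hz0 h2
      · intro ζ hζ
        refine ⟨z⁻¹ * ζ, ?_, by field_simp⟩
        rw [mem_nthRootsFinset hm] at hζ ⊢
        rw [mul_pow, inv_pow, h0.pow_eq_one, hζ, inv_one, one_mul]
    have h2 : ∑ ζ ∈ nthRootsFinset m (1 : ℂ), (z * ζ) ^ a =
        z ^ a * ∑ ζ ∈ nthRootsFinset m (1 : ℂ), ζ ^ a := by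
      rw [Finset.mul_sum]
      exact Finset.sum_congr rfl fun ζ _ => mul_pow _ _ _
    rw [h2] at h1
    have h3 : z ^ a ≠ 1 := fun h4 => h (h0.dvd_of_pow_eq_one _ h4)
    have h4 : (z ^ a - 1) * ∑ ζ ∈ nthRootsFinset m (1 : ℂ), ζ ^ a = 0 := by
      rw [sub_mul, one_mul, ← h1, sub_self]
    exact (mul_eq_zero.1 h4).resolve_left (sub_ne_zero.2 h3)

/-- geometric sums -/
lemma sum_geom {m : ℕ} {x : ℂ} (hx : x ^ m = 1) :
    ∑ j ∈ range m, x ^ j = if x = 1 then (m : ℂ) else 0 := by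
  split_ifs with h
  · simp [h]
  · have h1 := mul_neg_geom_sum x m
    rw [hx, sub_self] at h1
    exact (mul_eq_zero.1 h1).resolve_left (sub_ne_zero.2 (Ne.symm h))

/-- the number of solutions of a linear congruence -/
noncomputable def cnt (k c m : ℕ) : ℂ := ((range m).filter (fun j => m ∣ k * j + c)).card

lemma cnt_eq {m : ℕ} (hm : 0 < m) (k c : ℕ) :
    cnt k c m = ∑ ζ ∈ nthRootsFinset m (1 : ℂ), if ζ ^ k = 1 then ζ ^ c else 0 := by
  have hm0 : (m : ℂ) ≠ 0 := by exact_mod_cast hm.ne'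
  apply mul_left_cancel₀ hm0
  have h1 : (m : ℂ) * cnt k c m = ∑ j ∈ range m, ∑ ζ ∈ nthRootsFinset m (1 : ℂ), ζ ^ (k * j + c) := by
    rw [Finset.sum_congr rfl fun j _ => sum_roots hm (k * j + c), ← Finset.sum_filter, Finset.sum_const,
      nsmul_eq_mul, mul_comm]
    rfl
  rw [h1, Finset.sum_comm, Finset.mul_sum]
  refine Finset.sum_congr rfl fun ζ hζ => ?_
  have h2 : ∑ j ∈ range m, ζ ^ (k * j + c) = ζ ^ c * ∑ j ∈ range m, (ζ ^ k) ^ j := by
    rw [Finset.mul_sum]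
    refine Finset.sum_congr rfl fun j _ => ?_
    rw [pow_add, pow_mul, mul_comm]
  rw [h2, sum_geom (by rw [← pow_mul, mul_comm, pow_mul, (mem_nthRootsFinset hm 1).1 hζ, one_pow])]
  split_ifs <;> ring

/-- **Möbius inversion.** -/
theorem moebius_cnt {n : ℕ} (hn : 0 < n) (k c : ℕ) :
    ∑ x ∈ n.divisorsAntidiagonal, ArithmeticFunction.moebius x.1 • cnt k c x.2 =
      ∑ ζ ∈ primitiveRoots n ℂ, if ζ ^ k = 1 then ζ ^ c else 0 := by
  classical
  refine (ArithmeticFunction.sum_eq_iff_sum_smul_moebius_eq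
    (f := fun d => ∑ ζ ∈ primitiveRoots d ℂ, if ζ ^ k = 1 then ζ ^ c else 0)
    (g := fun d => cnt k c d)).1 ?_ n hn
  intro m hm
  have hm' : 0 < m := hm
  rw [cnt_eq hm', IsPrimitiveRoot.nthRoots_one_eq_biUnion_primitiveRoots, Finset.sum_biUnion]
  intro a _ b _ hab
  exact IsPrimitiveRoot.disjoint hab

end Pool.Agent.N770.BK
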